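import Pool.Agent.Helper535.AD

set_option autoImplicit false

open Set Topology Cardinal

namespace Pool.Agent.Results.MP_294ed4_gt.OffDiagonal

universe u v

/-- weakly sigma-point-finite families of sets -/
def WeaklySigmaPointFinite {Y : Type u} (𝒜 : Set (Set Y)) : Prop :=
  ∃ 𝒜n : ℕ → Set (Set Y), 𝒜 = ⋃ n, 𝒜n n ∧
    ∀ y : Y, 𝒜 = ⋃ n ∈ {n : ℕ | {A | A ∈ 𝒜n n ∧ y ∈ A}.Finite}, 𝒜n n

/-- every open cover has a weakly sigma-point-finite open refinement -/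
def WeaklySigmaMetacompact (Y : Type u) [TopologicalSpace Y] : Prop :=
  ∀ 𝒰 : Set (Set Y), (∀ U ∈ 𝒰, IsOpen U) → ⋃₀ 𝒰 = Set.univ →
    ∃ 𝒱 : Set (Set Y), (∀ V ∈ 𝒱, IsOpen V) ∧ ⋃₀ 𝒱 = Set.univ ∧ (∀ V ∈ 𝒱, ∃ U ∈ 𝒰, V ⊆ U) ∧
      WeaklySigmaPointFinite 𝒱

/-- Lindelöf Sigma spaces -/
def LindelofSigma (Y : Type u) [TopologicalSpace Y] : Prop :=
  ∃ (𝒩 : Set (Set Y)) (𝒞 : Set (Set Y)), 𝒩.Countable ∧ ⋃₀ 𝒞 = Set.univ ∧ (∀ K ∈ 𝒞, IsCompact K) ∧
    ∀ K ∈ 𝒞, ∀ U : Set Y, IsOpen U → K ⊆ U → ∃ N ∈ 𝒩, K ⊆ N ∧ N ⊆ U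

theorem wspf_of {Y : Type u} {𝒜 : Set (Set Y)} {C : Type v} [Countable C] [Nonempty C]
    (𝒜n : C → Set (Set Y)) (h1 : ∀ c, 𝒜n c ⊆ 𝒜)
    (h2 : ∀ y, ∀ A ∈ 𝒜, ∃ c, A ∈ 𝒜n c ∧ {A | A ∈ 𝒜n c ∧ y ∈ A}.Finite)
    (h3 : ∀ A ∈ 𝒜, ∃ c, A ∈ 𝒜n c) : WeaklySigmaPointFinite 𝒜 := by
  obtain ⟨φ, hφ⟩ := exists_surjective_nat C
  refine ⟨fun n => 𝒜n (φ n), ?_, ?_⟩
  · apply Subset.antisymm
    · intro A hA
      obtain ⟨c, hc⟩ := h3 A hA
      obtain ⟨n, rfl⟩ := hφ c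
      exact mem_iUnion.2 ⟨n, hc⟩
    · exact iUnion_subset fun n => h1 _
  · intro y
    apply Subset.antisymm
    · intro A hA
      obtain ⟨c, hc, hf⟩ := h2 y A hA
      obtain ⟨n, rfl⟩ := hφ c
      exact mem_iUnion₂.2 ⟨n, hf, hc⟩
    · exact iUnion₂_subset fun n _ => h1 _

/-- an `E`-family which separates points makes every subspace weakly sigma-metacompact -/
theorem hered {E : Type v} [TopologicalSpace E] [SecondCountableTopology E]
    {X : Type u} [TopologicalSpace X] [CompactSpace X] [T2Space X] (hX : Helper535.GS E X)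
    (Y : Set X) : WeaklySigmaMetacompact Y := by
  classical
  obtain ⟨S, h, e, H, hsep⟩ := hX
  intro 𝒰 h𝒰 hcov
  -- a countable base
  obtain ⟨O, hO⟩ : ∃ O : ℕ → Set E, ∀ z : E, ∀ N ∈ 𝓝 z, ∃ k, z ∈ O k ∧ O k ⊆ N := by
    rcases isEmpty_or_nonempty E with hE | hE
    · exact ⟨fun _ => ∅, fun z => (hE.false z).elim⟩
    · have hb := TopologicalSpace.isBasis_countableBasis E
      obtain ⟨s, hs, -⟩ := hb.exists_subset_of_mem_open (mem_univ (Classical.arbitrary E)) isOpen_univ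
      obtain ⟨O, hO⟩ := (TopologicalSpace.countable_countableBasis E).exists_eq_range ⟨s, hs⟩
      refine ⟨O, fun z N hN => ?_⟩
      obtain ⟨t, ht, hzt, htN⟩ := (hb.mem_nhds_iff).1 hN
      rw [hO] at ht
      obtain ⟨k, rfl⟩ := ht
      exact ⟨k, hzt, htN⟩
  -- open sets of the whole space
  have hext : ∀ U : 𝒰, ∃ Ũ : Set X, IsOpen Ũ ∧ Subtype.val ⁻¹' Ũ = U.1 := fun U =>
    isOpen_induced_iff.1 (h𝒰 U.1 U.2)
  choose Ũ hŨo hŨ using hext
  let Idx : Type u := Finset (ℕ × ℕ) × Finset (S × ℚ) × ℕ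
  let K : Idx → Set X := fun τ => {y | (∀ t ∈ τ.2.1, |h t.1 y - t.2| ≤ 1/((τ.2.2:ℝ)+1)) ∧
    ∀ c ∈ τ.1, ∀ s, e s ∈ O c.1 → s ∉ τ.2.1.image Prod.fst → |h s y| ≤ 1/((c.2:ℝ)+1)}
  let V : Idx → Set X := fun τ => {y | ∀ t ∈ τ.2.1, |h t.1 y - t.2| < 1/((τ.2.2:ℝ)+1)}
  have hVo : ∀ τ, IsOpen (V τ) := by
    intro τ
    have : V τ = ⋂ t ∈ τ.2.1, {y | |h t.1 y - t.2| < 1/((τ.2.2:ℝ)+1)} := by
      ext y; simp [V]
    rw [this]
    apply isOpen_biInter_finset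
    intro t _
    exact isOpen_lt ((h t.1).continuous.sub continuous_const).abs continuous_const
  let good : Idx → Prop := fun τ => (∀ t ∈ τ.2.1, 2/((τ.2.2:ℝ)+1) ≤ |(t.2:ℝ)|) ∧
    ∃ U : 𝒰, K τ ⊆ Ũ U
  let UU : {τ // good τ} → 𝒰 := fun τ => Classical.choose τ.2.2
  have hUU : ∀ τ, K τ.1 ⊆ Ũ (UU τ) := fun τ => Classical.choose_spec τ.2.2
  let VV : {τ // good τ} → Set Y := fun τ => Subtype.val ⁻¹' (V τ.1 ∩ Ũ (UU τ))
  refine ⟨range VV, ?_, ?_, ?_, ?_⟩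
  · rintro _ ⟨τ, rfl⟩
    exact ((hVo _).inter (hŨo _)).preimage continuous_subtype_val
  · rw [eq_univ_iff_forall]
    intro x
    have hx : x ∈ ⋃₀ 𝒰 := by rw [hcov]; exact mem_univ x
    obtain ⟨U, hU, hxU⟩ := hx
    let U' : 𝒰 := ⟨U, hU⟩
    have hxU' : x.1 ∈ Ũ U' := by
      have : x ∈ Subtype.val ⁻¹' (Ũ U') := by rw [hŨ U']; exact hxU
      exact this
    -- finitely many coordinates
    have hcomp : IsCompact (Ũ U')ᶜ := (hŨo U').isClosed_compl.isCompact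
    have hNy : ∀ y : ((Ũ U')ᶜ : Set X), ∃ s : S, ∃ η : ℝ, 0 < η ∧ η < |h s y.1 - h s x.1| := by
      intro y
      have hne : x.1 ≠ y.1 := by
        intro heq
        exact y.2 (heq ▸ hxU')
      have : ∃ s, h s x.1 ≠ h s y.1 := by
        by_contra hall
        push Not at hall
        exact hne (hsep _ _ hall)
      obtain ⟨s, hs⟩ := this
      have hpos : 0 < |h s y.1 - h s x.1| := abs_pos.2 (sub_ne_zero.2 hs.symm)
      exact ⟨s, |h s y.1 - h s x.1|/2, by positivity, by linarith⟩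
    choose sf ηf hη0 hη using hNy
    obtain ⟨F, hF⟩ := hcomp.elim_finite_subcover
      (fun y : ((Ũ U')ᶜ : Set X) => {y' : X | ηf y < |h (sf y) y' - h (sf y) x.1|})
      (fun y => isOpen_lt continuous_const
        ((h (sf y)).continuous.sub continuous_const).abs)
      (fun y hy => mem_iUnion.2 ⟨⟨y, hy⟩, hη ⟨y, hy⟩⟩)
    obtain ⟨η0, hη00, hη0F⟩ : ∃ η0 > 0, ∀ y ∈ F, η0 ≤ ηf y := by
      clear hF
      induction F using Finset.induction_on with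
      | empty => exact ⟨1, one_pos, by simp⟩
      | insert a F _ ih =>
        obtain ⟨η0, h1, h2⟩ := ih
        refine ⟨min η0 (ηf a), lt_min h1 (hη0 a), ?_⟩
        intro y hy
        rcases Finset.mem_insert.1 hy with rfl | hy
        · exact min_le_right _ _
        · exact (min_le_left _ _).trans (h2 y hy)
    obtain ⟨n, hn⟩ := exists_nat_one_div_lt (show 0 < η0/2 by positivity)
    obtain ⟨m, hm⟩ := exists_nat_one_div_lt
      (show 0 < min (η0/2) ((1/((n:ℝ)+1))/3) by positivity)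
    have hm1 : 1/((m:ℝ)+1) < η0/2 := hm.trans_le (min_le_left _ _)
    have hm2 : 3 * (1/((m:ℝ)+1)) ≤ 1/((n:ℝ)+1) := by
      have := hm.trans_le (min_le_right _ _)
      linarith
    have hk : ∀ y : ((Ũ U')ᶜ : Set X), ∃ k, e (sf y) ∈ O k ∧
        {s | e s ∈ O k ∧ 1/((n:ℝ)+1) ≤ |h s x.1|}.Finite := by
      intro y
      obtain ⟨N, hN, hf⟩ := H.fin x.1 (e (sf y)) (1/((n:ℝ)+1)) (by positivity)
      obtain ⟨k, hk1, hk2⟩ := hO _ N hN
      exact ⟨k, hk1, hf.subset fun s hs => ⟨hk2 hs.1, hs.2⟩⟩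
    choose k hk1 hk2 using hk
    have hFx : {s | ∃ y ∈ F, e s ∈ O (k y) ∧ 1/((n:ℝ)+1) ≤ |h s x.1|}.Finite := by
      have : {s | ∃ y ∈ F, e s ∈ O (k y) ∧ 1/((n:ℝ)+1) ≤ |h s x.1|} =
          ⋃ y ∈ (F : Set ((Ũ U')ᶜ : Set X)), {s | e s ∈ O (k y) ∧ 1/((n:ℝ)+1) ≤ |h s x.1|} := by
        ext s
        constructor
        · rintro ⟨y, hy, h1⟩
          exact mem_iUnion₂.2 ⟨y, hy, h1⟩
        · intro hs
          obtain ⟨y, hy, h1⟩ := mem_iUnion₂.1 hs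
          exact ⟨y, hy, h1⟩
      rw [this]
      exact F.finite_toSet.biUnion fun y _ => hk2 y
    have ha : ∀ s : S, ∃ a : ℚ, |h s x.1 - a| < 1/((m:ℝ)+1) := by
      intro s
      have hp : (0:ℝ) < 1/((m:ℝ)+1) := by positivity
      obtain ⟨a, ha1, ha2⟩ := exists_rat_btwn (show h s x.1 - 1/((m:ℝ)+1) < h s x.1 by linarith)
      refine ⟨a, ?_⟩
      rw [abs_lt]; constructor <;> linarith
    choose a ha using ha
    let τ : Idx := (F.image fun y => (k y, n), hFx.toFinset.image fun s => (s, a s), m)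
    have hτ1 : ∀ s, s ∈ τ.2.1.image Prod.fst ↔ ∃ y ∈ F, e s ∈ O (k y) ∧
        1/((n:ℝ)+1) ≤ |h s x.1| := by
      intro s
      simp [τ]
    have hτ2 : ∀ t ∈ τ.2.1, t.2 = a t.1 ∧ 1/((n:ℝ)+1) ≤ |h t.1 x.1| := by
      intro t ht
      obtain ⟨s, hs, rfl⟩ := Finset.mem_image.1 ht
      obtain ⟨y, -, -, h2⟩ := hFx.mem_toFinset.1 hs
      exact ⟨rfl, h2⟩
    have hτm : τ.2.2 = m := rfl
    have hKU : K τ ⊆ Ũ U' := by
      intro y hy
      by_contra hyU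
      obtain ⟨y0, hy0⟩ := mem_iUnion.1 (hF hyU)
      obtain ⟨hy0F, hy1⟩ := mem_iUnion.1 hy0
      have hy2 : ηf y0 < |h (sf y0) y - h (sf y0) x.1| := hy1
      have hy3 : η0 < |h (sf y0) y - h (sf y0) x.1| := (hη0F y0 hy0F).trans_lt hy2
      by_cases hs : sf y0 ∈ τ.2.1.image Prod.fst
      · obtain ⟨t, ht, hts⟩ := Finset.mem_image.1 hs
        have e1 := hy.1 t ht
        have e2 := ha t.1
        rw [(hτ2 t ht).1, hts, hτm] at e1
        rw [hts] at e2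
        have e3 : |h (sf y0) y - h (sf y0) x.1| ≤ |h (sf y0) y - a (sf y0)| +
            |h (sf y0) x.1 - a (sf y0)| := by
          have : h (sf y0) y - h (sf y0) x.1 = (h (sf y0) y - a (sf y0)) -
            (h (sf y0) x.1 - a (sf y0)) := by ring
          rw [this]; exact abs_sub _ _
        linarith
      · have e1 := hy.2 (k y0, n) (Finset.mem_image_of_mem _ hy0F) (sf y0) (hk1 y0) hs
        have e2 : |h (sf y0) x.1| < 1/((n:ℝ)+1) := by
          by_contra hcon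
          push Not at hcon
          exact hs ((hτ1 _).2 ⟨y0, hy0F, hk1 y0, hcon⟩)
        have e3 : |h (sf y0) y - h (sf y0) x.1| ≤ |h (sf y0) y| + |h (sf y0) x.1| := abs_sub _ _
        simp only at e1
        linarith
    have hgood : good τ := by
      refine ⟨?_, U', hKU⟩
      intro t ht
      obtain ⟨h1, h2⟩ := hτ2 t ht
      have e1 := ha t.1
      rw [h1, hτm]
      have e2 : |h t.1 x.1| ≤ |h t.1 x.1 - a t.1| + |(a t.1 : ℝ)| := by
        have : h t.1 x.1 = (h t.1 x.1 - a t.1) + a t.1 := by ring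
        calc |h t.1 x.1| = |(h t.1 x.1 - a t.1) + a t.1| := by rw [← this]
          _ ≤ _ := abs_add_le _ _
      have e3 : 2/((m:ℝ)+1) = 2 * (1/((m:ℝ)+1)) := by ring
      rw [e3]
      linarith
    have hxK : x.1 ∈ K τ := by
      constructor
      · intro t ht
        rw [(hτ2 t ht).1, hτm]
        exact (ha t.1).le
      · intro c hc s hs hs'
        obtain ⟨y, hy, rfl⟩ := Finset.mem_image.1 hc
        by_contra hcon
        push Not at hcon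
        exact hs' ((hτ1 _).2 ⟨y, hy, hs, hcon.le⟩)
    refine ⟨VV ⟨τ, hgood⟩, ⟨_, rfl⟩, ?_, hUU ⟨τ, hgood⟩ hxK⟩
    intro t ht
    rw [(hτ2 t ht).1]
    exact ha t.1
  · rintro _ ⟨τ, rfl⟩
    refine ⟨(UU τ).1, (UU τ).2, ?_⟩
    rintro y ⟨-, hy⟩
    have : y ∈ Subtype.val ⁻¹' (Ũ (UU τ)) := hy
    rwa [hŨ] at this
  · let Cd : Type := Finset (ℕ × ℕ) × ℕ × Finset ℕ × Finset ℚ
    let fam : Cd → Set (Set Y) := fun c => {A | ∃ τ : {τ // good τ}, A = VV τ ∧ τ.1.1 = c.1 ∧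
      τ.1.2.2 = c.2.1 ∧ ∀ t ∈ τ.1.2.1, (∃ k ∈ c.2.2.1, e t.1 ∈ O k) ∧ t.2 ∈ c.2.2.2}
    have hk : ∀ (y : X) (m : ℕ) (s : S), ∃ k, e s ∈ O k ∧
        {s | e s ∈ O k ∧ 1/((m:ℝ)+1) ≤ |h s y|}.Finite := by
      intro y m s
      obtain ⟨N, hN, hf⟩ := H.fin y (e s) (1/((m:ℝ)+1)) (by positivity)
      obtain ⟨k, hk1, hk2⟩ := hO _ N hN
      exact ⟨k, hk1, hf.subset fun s hs => ⟨hk2 hs.1, hs.2⟩⟩
    choose k hk1 hk2 using hk
    have h2 : ∀ y : X, ∀ A ∈ range VV, ∃ c, A ∈ fam c ∧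
        ∀ y' : Y, y'.1 = y → {A | A ∈ fam c ∧ y' ∈ A}.Finite := by
      rintro y _ ⟨τ, rfl⟩
      let m := τ.1.2.2
      refine ⟨(τ.1.1, m, τ.1.2.1.image fun t => k y m t.1, τ.1.2.1.image Prod.snd),
        ⟨τ, rfl, rfl, rfl, fun t ht => ⟨⟨_, Finset.mem_image_of_mem _ ht, hk1 _ _ _⟩,
          Finset.mem_image_of_mem _ ht⟩⟩, ?_⟩
      rintro y' rfl
      -- the finite set of possible coordinates
      have hfin : (⋃ t ∈ (τ.1.2.1 : Set (S × ℚ)), {s | e s ∈ O (k y'.1 m t.1) ∧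
          1/((m:ℝ)+1) ≤ |h s y'.1|}).Finite :=
        τ.1.2.1.finite_toSet.biUnion fun t _ => hk2 _ _ _
      let Z : Finset (S × ℚ) := hfin.toFinset ×ˢ τ.1.2.1.image Prod.snd
      have hfin2 : {τ' : {τ // good τ} | τ'.1.1 = τ.1.1 ∧ τ'.1.2.2 = m ∧
          τ'.1.2.1 ∈ Z.powerset}.Finite := by
        have hinj : Set.InjOn (fun τ' : {τ // good τ} => τ'.1.2.1)
            {τ' : {τ // good τ} | τ'.1.1 = τ.1.1 ∧ τ'.1.2.2 = m ∧ τ'.1.2.1 ∈ Z.powerset} := by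
          rintro τ1 ⟨h1, h2, -⟩ τ2 ⟨h1', h2', -⟩ heq
          apply Subtype.ext
          exact Prod.ext (h1.trans h1'.symm) (Prod.ext heq (h2.trans h2'.symm))
        apply Set.Finite.of_finite_image _ hinj
        apply (Z.powerset.finite_toSet).subset
        rintro _ ⟨τ', h', rfl⟩
        exact h'.2.2
      apply (hfin2.image VV).subset
      rintro A ⟨⟨τ', rfl, h1, h2, h3⟩, hyA⟩
      refine ⟨τ', ⟨h1, h2, ?_⟩, rfl⟩
      rw [Finset.mem_powerset]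
      intro t ht
      obtain ⟨⟨k', hk', hek'⟩, ht2⟩ := h3 t ht
      obtain ⟨t0, ht0, rfl⟩ := Finset.mem_image.1 hk'
      have hyV : |h t.1 y'.1 - t.2| < 1/((τ'.1.2.2:ℝ)+1) := hyA.1 t ht
      have hgd := τ'.2.1 t ht
      have h2' : τ'.1.2.2 = m := h2
      rw [h2'] at hyV hgd
      have e3 : 2/((m:ℝ)+1) = 2 * (1/((m:ℝ)+1)) := by ring
      rw [e3] at hgd
      have e4 : |(t.2:ℝ)| ≤ |h t.1 y'.1| + |h t.1 y'.1 - t.2| := by
        have : (t.2:ℝ) = h t.1 y'.1 - (h t.1 y'.1 - t.2) := by ring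
        calc |(t.2:ℝ)| = |h t.1 y'.1 - (h t.1 y'.1 - t.2)| := by rw [← this]
          _ ≤ _ := abs_sub _ _
      have e5 : 1/((m:ℝ)+1) ≤ |h t.1 y'.1| := by linarith
      rw [Finset.mem_product]
      refine ⟨?_, ht2⟩
      rw [Set.Finite.mem_toFinset]
      exact mem_iUnion₂.2 ⟨t0, ht0, hek', e5⟩
    have hsub : ∀ c, fam c ⊆ range VV := by
      rintro c A ⟨τ, rfl, -⟩
      exact ⟨τ, rfl⟩
    rcases isEmpty_or_nonempty Y with hY | hY
    · refine wspf_of (C := Cd) fam hsub (fun y => (hY.false y).elim) ?_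
      rintro _ ⟨τ, rfl⟩
      refine ⟨(τ.1.1, τ.1.2.2, τ.1.2.1.image fun t => Classical.choose (hO (e t.1) Set.univ
        Filter.univ_mem), τ.1.2.1.image Prod.snd), τ, rfl, rfl, rfl, fun t ht => ⟨⟨_,
        Finset.mem_image_of_mem _ ht, ?_⟩, Finset.mem_image_of_mem _ ht⟩⟩
      exact (Classical.choose_spec (hO (e t.1) Set.univ Filter.univ_mem)).1
    · refine wspf_of (C := Cd) fam hsub ?_ ?_
      · intro y A hA
        obtain ⟨c, hc1, hc2⟩ := h2 y.1 A hA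
        exact ⟨c, hc1, hc2 y rfl⟩
      · intro A hA
        obtain ⟨c, hc1, -⟩ := h2 (Classical.arbitrary Y).1 A hA
        exact ⟨c, hc1⟩

/-- covers of the complement of the diagonal from weak sigma-metacompactness -/
theorem exists_DD {X : Type u} [TopologicalSpace X] [CompactSpace X] [T2Space X]
    (hX : WeaklySigmaMetacompact {p : X × X // p.1 ≠ p.2}) :
    ∃ (E : Type) (_ : TopologicalSpace E) (_ : SecondCountableTopology E) (_ : Nonempty E),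
      Nonempty (Helper535.DD E X) := by
  classical
  have hYo : IsOpen {p : X × X | p.1 ≠ p.2} := isOpen_ne_fun continuous_fst continuous_snd
  have hemb : IsOpenEmbedding (Subtype.val : {p : X × X // p.1 ≠ p.2} → X × X) :=
    hYo.isOpenEmbedding_subtypeVal
  -- Urysohn functions
  have ury : ∀ (y : X) (A : Set X), IsOpen A → y ∈ A → ∃ f : C(X, ℝ), f y = 1 ∧
      (∀ z, 0 < f z → z ∈ A) := by
    intro y A hA hy
    obtain ⟨f, hf0, hf1, -⟩ := exists_continuous_zero_one_of_isClosed hA.isClosed_compl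
      (isClosed_singleton (x := y)) (by
        rw [disjoint_singleton_right]
        exact fun h => h hy)
    refine ⟨f, hf1 rfl, ?_⟩
    intro z hz
    by_contra hzA
    have : f z = 0 := hf0 hzA
    rw [this] at hz
    exact lt_irrefl _ hz
  -- the first cover
  obtain ⟨𝒱, h𝒱o, h𝒱c, h𝒱r, 𝒱n, h𝒱n, h𝒱f⟩ := hX
    {O | IsOpen O ∧ ∃ g : C(X, ℝ), ∀ p ∈ O, g p.1.1 ≠ g p.1.2} (fun U hU => hU.1) (by
      rw [eq_univ_iff_forall]
      intro p
      obtain ⟨g, hg1, hg2⟩ := ury p.1.1 {p.1.2}ᶜ isOpen_compl_singleton p.2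
      have hg3 : ¬ 0 < g p.1.2 := fun h => hg2 _ h rfl
      refine ⟨{q | g q.1.1 ≠ g q.1.2}, ⟨?_, g, fun _ h => h⟩, ?_⟩
      · exact isOpen_ne_fun (g.continuous.comp (continuous_fst.comp continuous_subtype_val))
          (g.continuous.comp (continuous_snd.comp continuous_subtype_val))
      · intro heq
        apply hg3
        rw [← heq, hg1]; exact one_pos)
  choose R hR hVR using h𝒱r
  let g : 𝒱 → C(X, ℝ) := fun V => Classical.choose (hR V.1 V.2).2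
  have hg : ∀ (V : 𝒱), ∀ p ∈ V.1, g V p.1.1 ≠ g V p.1.2 := fun V p hp =>
    Classical.choose_spec (hR V.1 V.2).2 p (hVR V.1 V.2 hp)
  let W : 𝒱 → Set (X × X) := fun V => Subtype.val '' V.1
  have hWo : ∀ V, IsOpen (W V) := fun V => hemb.isOpenMap _ (h𝒱o V.1 V.2)
  have hex : ∀ (p : {p : X × X // p.1 ≠ p.2}), ∀ V ∈ 𝒱, ∃ n, V ∈ 𝒱n n ∧
      {A | A ∈ 𝒱n n ∧ p ∈ A}.Finite := by
    intro p V hV
    have h1 := h𝒱f p
    rw [h1] at hV
    obtain ⟨n, hn, hVn⟩ := mem_iUnion₂.1 hV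
    exact ⟨n, hVn, hn⟩
  let Es : Set (ℕ → Bool) := {z | ∀ p : {p : X × X // p.1 ≠ p.2}, ∃ n, z n = true ∧
    {A | A ∈ 𝒱n n ∧ p ∈ A}.Finite}
  let E : Type := Es
  let e : 𝒱 → E := fun V => ⟨fun n => decide (V.1 ∈ 𝒱n n), fun p => by
    obtain ⟨n, h1, h2⟩ := hex p V.1 V.2
    exact ⟨n, decide_eq_true h1, h2⟩⟩
  have hEne : Nonempty E := ⟨⟨fun _ => true, fun p => by
    have : p ∈ ⋃₀ 𝒱 := by rw [h𝒱c]; exact mem_univ p
    obtain ⟨V, hV, -⟩ := this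
    obtain ⟨n, -, h2⟩ := hex p V hV
    exact ⟨n, rfl, h2⟩⟩⟩
  -- the second cover
  obtain ⟨𝒱', h𝒱o', h𝒱c', h𝒱r', 𝒱n', h𝒱n', h𝒱f'⟩ := hX
    {O | IsOpen O ∧ ∃ (u v : C(X, ℝ)) (s : 𝒱), (∀ p ∈ O, 0 < u p.1.1 ∧ 0 < v p.1.2) ∧
      ∀ y z, 0 < u y → 0 < v z → (y, z) ∈ W s} (fun U hU => hU.1) (by
      rw [eq_univ_iff_forall]
      intro p
      have hp : p ∈ ⋃₀ 𝒱 := by rw [h𝒱c]; exact mem_univ p
      obtain ⟨V, hV, hpV⟩ := hp
      have hpW : p.1 ∈ W ⟨V, hV⟩ := ⟨p, hpV, rfl⟩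
      obtain ⟨A, C, hA, hC, hpA, hpC, hAC⟩ := isOpen_prod_iff.1 (hWo ⟨V, hV⟩) p.1.1 p.1.2 hpW
      obtain ⟨u, hu1, hu2⟩ := ury p.1.1 A hA hpA
      obtain ⟨v, hv1, hv2⟩ := ury p.1.2 C hC hpC
      refine ⟨{q | 0 < u q.1.1} ∩ {q | 0 < v q.1.2}, ⟨?_, u, v, ⟨V, hV⟩, fun q hq => hq, ?_⟩, ?_⟩
      · exact (isOpen_lt continuous_const
          (u.continuous.comp (continuous_fst.comp continuous_subtype_val))).inter
          (isOpen_lt continuous_const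
          (v.continuous.comp (continuous_snd.comp continuous_subtype_val)))
      · intro y z hy hz
        exact hAC ⟨hu2 y hy, hv2 z hz⟩
      · constructor
        · show 0 < u p.1.1
          rw [hu1]; exact one_pos
        · show 0 < v p.1.2
          rw [hv1]; exact one_pos)
  choose R' hR' hVR' using h𝒱r'
  choose u v σ huv hσ using fun V : 𝒱' => (hR' V.1 V.2).2
  have hcnt : ∀ p, {V | V ∈ 𝒱' ∧ p ∈ V}.Countable := by
    intro p
    have : {V | V ∈ 𝒱' ∧ p ∈ V} ⊆ ⋃ n ∈ {n : ℕ | {A | A ∈ 𝒱n' n ∧ p ∈ A}.Finite},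
        {A | A ∈ 𝒱n' n ∧ p ∈ A} := by
      rintro V ⟨hV, hpV⟩
      have h1 := h𝒱f' p
      rw [h1] at hV
      obtain ⟨n, hn, hVn⟩ := mem_iUnion₂.1 hV
      exact mem_iUnion₂.2 ⟨n, hn, hVn, hpV⟩
    refine Set.Countable.mono this ?_
    exact (Set.to_countable _).biUnion fun n hn => Set.Finite.countable hn
  refine ⟨Es, inferInstance, inferInstance, hEne, ⟨{
    S := 𝒱
    W := W
    g := g
    e := e
    T := 𝒱'
    W' := fun V => Subtype.val '' V.1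
    u := u
    v := v
    σ := σ
    openW := hWo
    openW' := fun V => hemb.isOpenMap _ (h𝒱o' V.1 V.2)
    hg := ?_
    fin := ?_
    cnt := ?_
    hu := ?_
    hσ := fun t y z h1 h2 => hσ t y z h1 h2
    cover := ?_ }⟩⟩
  · rintro V y z ⟨p, hp, hpyz⟩
    have h1 := hg V p hp
    rw [hpyz] at h1
    exact h1
  · intro p z
    by_cases hp : p.1 ≠ p.2
    · obtain ⟨n, hn, hf⟩ := z.2 ⟨p, hp⟩
      refine ⟨{z' : E | z'.1 n = true}, ?_, ?_⟩
      · have hc : Continuous (fun z' : E => z'.1 n) :=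
          (continuous_apply n).comp continuous_subtype_val
        exact ((isOpen_discrete {true}).preimage hc).mem_nhds hn
      · have hinj : Set.InjOn (fun V : 𝒱 => V.1) {s | e s ∈ {z' : E | z'.1 n = true} ∧ p ∈ W s} :=
          fun a _ b _ h => Subtype.ext h
        apply Set.Finite.of_finite_image _ hinj
        apply hf.subset
        rintro _ ⟨V, ⟨h1, q, hq, hqp⟩, rfl⟩
        have h1' : decide (V.1 ∈ 𝒱n n) = true := h1
        refine ⟨of_decide_eq_true h1', ?_⟩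
        have : (⟨p, hp⟩ : {p : X × X // p.1 ≠ p.2}) = q := Subtype.ext hqp.symm
        show (⟨p, hp⟩ : {p : X × X // p.1 ≠ p.2}) ∈ V.1
        rw [this]; exact hq
    · refine ⟨Set.univ, Filter.univ_mem, ?_⟩
      convert Set.finite_empty
      rw [eq_empty_iff_forall_notMem]
      rintro V ⟨-, q, -, hqp⟩
      exact hp (hqp ▸ q.2)
  · intro p
    by_cases hp : p.1 ≠ p.2
    · refine Set.countable_of_injective_of_countable_image (f := fun V : 𝒱' => V.1)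
        (fun a _ b _ h => Subtype.ext h) ((hcnt ⟨p, hp⟩).mono ?_)
      rintro _ ⟨V, ⟨q, hq, hqp⟩, rfl⟩
      refine ⟨V.2, ?_⟩
      have : (⟨p, hp⟩ : {p : X × X // p.1 ≠ p.2}) = q := Subtype.ext hqp.symm
      show (⟨p, hp⟩ : {p : X × X // p.1 ≠ p.2}) ∈ V.1
      rw [this]; exact hq
    · convert Set.countable_empty
      rw [eq_empty_iff_forall_notMem]
      rintro V ⟨q, -, hqp⟩
      exact hp (hqp ▸ q.2)
  · rintro V y z ⟨p, hp, hpyz⟩
    have h1 := huv V p (hVR' V.1 V.2 hp)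
    rw [hpyz] at h1
    exact h1
  · intro y z hyz
    have hp : (⟨(y, z), hyz⟩ : {p : X × X // p.1 ≠ p.2}) ∈ ⋃₀ 𝒱' := by
      rw [h𝒱c']; exact mem_univ _
    obtain ⟨V, hV, hpV⟩ := hp
    exact ⟨⟨V, hV⟩, ⟨(y, z), hyz⟩, hpV, rfl⟩

/-- **Theorem.** Let `X` be compact Hausdorff such that the complement of the diagonal in `X × X` is
weakly sigma-metacompact. Then `C_p(X)` is a Lindelöf Sigma-space, that is, `X` is Gul'ko compact,
and every subspace of `X × X` is weakly sigma-metacompact. -/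
theorem result (X : Type u) [TopologicalSpace X] [CompactSpace X] [T2Space X]
    (hX : WeaklySigmaMetacompact {p : X × X // p.1 ≠ p.2}) :
    LindelofSigma {f : X → ℝ // Continuous f} ∧
      ∀ Y : Set (X × X), WeaklySigmaMetacompact Y := by
  obtain ⟨E, _, _, ⟨z0⟩, ⟨𝔇⟩⟩ := exists_DD hX
  have hgs : Helper535.GS (ℕ → Helper535.F0 E) X := 𝔇.gs z0
  constructor
  · obtain ⟨𝓕, h𝓕, hz⟩ := hgs.network
    refine ⟨𝓕, {K | IsCompact K ∧ ∀ U, IsOpen U → K ⊆ U → ∃ F ∈ 𝓕, K ⊆ F ∧ F ⊆ U}, h𝓕, ?_,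
      fun K hK => hK.1, fun K hK => hK.2⟩
    rw [eq_univ_iff_forall]
    intro z
    obtain ⟨K, hK, hzK, hU⟩ := hz z
    exact ⟨K, ⟨hK, hU⟩, hzK⟩
  · intro Y
    exact hered hgs.prod Y

end Pool.Agent.Results.MP_294ed4_gt.OffDiagonal
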